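import Pool.Agent.N165.CU.Stm

set_option autoImplicit false

/-! # Part B1 (helper475): functional equations are invariant under algebra automorphisms -/

namespace Pool.Agent.N475.CU

open MvPolynomial Pool.Agent.W427.SMC Pool.Agent.H628R4.TP Pool.Agent.N165.CU

variable {τ : Type}

/-- multiplication operators are in the Weyl algebra -/
theorem mulLeft_mem (p : MvPolynomial τ ℂ) : LinearMap.mulLeft ℂ p ∈ weylS τ := by
  induction p using MvPolynomial.induction_on with
  | C a =>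
    have h1 : LinearMap.mulLeft ℂ (C a : MvPolynomial τ ℂ) = algebraMap ℂ _ a := by
      refine LinearMap.ext fun q => ?_
      rw [LinearMap.mulLeft_apply, Module.algebraMap_end_apply, smul_eq_C_mul]
    rw [h1]
    exact (weylS τ).algebraMap_mem a
  | add p q hp hq =>
    have h1 : LinearMap.mulLeft ℂ (p + q) = LinearMap.mulLeft ℂ p + LinearMap.mulLeft ℂ q := by
      refine LinearMap.ext fun r => ?_
      rw [LinearMap.add_apply, LinearMap.mulLeft_apply, LinearMap.mulLeft_apply, LinearMap.mulLeft_apply, add_mul]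
    rw [h1]
    exact (weylS τ).add_mem hp hq
  | mul_X p i hp =>
    have h1 : LinearMap.mulLeft ℂ (p * X i) = LinearMap.mulLeft ℂ p * LinearMap.mulLeft ℂ (X i) := by
      refine LinearMap.ext fun r => ?_
      rw [Module.End.mul_apply, LinearMap.mulLeft_apply, LinearMap.mulLeft_apply, LinearMap.mulLeft_apply, mul_assoc]
    rw [h1]
    exact (weylS τ).mul_mem hp (Algebra.subset_adjoin (Or.inl ⟨i, rfl⟩))

/-- derivations are in the Weyl algebra -/
theorem deriv_mem [Finite τ] (D : Derivation ℂ (MvPolynomial τ ℂ) (MvPolynomial τ ℂ)) :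
    (D : MvPolynomial τ ℂ →ₗ[ℂ] MvPolynomial τ ℂ) ∈ weylS τ := by
  classical
  have := Fintype.ofFinite τ
  have hs : ∀ q : MvPolynomial τ ℂ, (∑ j, D (X j) • pderiv j : Derivation ℂ (MvPolynomial τ ℂ)
      (MvPolynomial τ ℂ)) q = ∑ j, D (X j) * pderiv j q := by
    intro q
    have h := congrFun (map_sum (Derivation.coeFnAddMonoidHom (R := ℂ) (A := MvPolynomial τ ℂ)
      (M := MvPolynomial τ ℂ)) (fun j => D (X j) • pderiv j) Finset.univ) q
    rw [Finset.sum_apply] at h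
    exact h
  have h1 : D = ∑ j, D (X j) • pderiv j := by
    apply MvPolynomial.derivation_ext
    intro i
    rw [hs, Finset.sum_eq_single i]
    · rw [pderiv_X_self, mul_one]
    · intro j _ hj
      rw [pderiv_X_of_ne hj.symm, mul_zero]
    · intro h
      exact absurd (Finset.mem_univ i) h
  have h2 : (D : MvPolynomial τ ℂ →ₗ[ℂ] MvPolynomial τ ℂ) =
      ∑ j, LinearMap.mulLeft ℂ (D (X j)) * ((pderiv j : Derivation ℂ (MvPolynomial τ ℂ)
        (MvPolynomial τ ℂ)) : MvPolynomial τ ℂ →ₗ[ℂ] MvPolynomial τ ℂ) := by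
    refine LinearMap.ext fun q => ?_
    rw [LinearMap.sum_apply]
    have h3 : D q = ∑ j, D (X j) * pderiv j q := by
      conv_lhs => rw [h1]
      exact hs q
    exact h3
  rw [h2]
  exact (weylS τ).sum_mem fun j _ => (weylS τ).mul_mem (mulLeft_mem _) (Algebra.subset_adjoin (Or.inr ⟨j, rfl⟩))

/-- conjugation by an automorphism -/
theorem conj_mem [Finite τ] (Φ : MvPolynomial τ ℂ ≃ₐ[ℂ] MvPolynomial τ ℂ)
    (Q : Module.End ℂ (MvPolynomial τ ℂ)) (hQ : Q ∈ weylS τ) :
    ∃ R : weylS τ, ∀ p, (R : Module.End ℂ (MvPolynomial τ ℂ)) p = Φ (Q (Φ.symm p)) := by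
  induction hQ using Algebra.adjoin_induction with
  | mem Q h =>
    rcases h with ⟨i, rfl⟩ | ⟨i, rfl⟩
    · refine ⟨⟨_, mulLeft_mem (Φ (X i))⟩, fun p => ?_⟩
      change Φ (X i) * p = Φ (X i * Φ.symm p)
      rw [map_mul, Φ.apply_symm_apply]
    · obtain ⟨D, hD⟩ : ∃ D : Derivation ℂ (MvPolynomial τ ℂ) (MvPolynomial τ ℂ),
          ∀ p, D p = Φ (pderiv i (Φ.symm p)) := by
        refine ⟨Derivation.mk' (Φ.toLinearMap ∘ₗ ((pderiv i : Derivation ℂ (MvPolynomial τ ℂ)
          (MvPolynomial τ ℂ)) : MvPolynomial τ ℂ →ₗ[ℂ] MvPolynomial τ ℂ) ∘ₗ Φ.symm.toLinearMap) ?_, fun p => rfl⟩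
        intro a b
        change Φ (pderiv i (Φ.symm (a * b))) = a • Φ (pderiv i (Φ.symm b)) + b • Φ (pderiv i (Φ.symm a))
        rw [map_mul, Derivation.leibniz, map_add, smul_eq_mul, smul_eq_mul, map_mul, map_mul,
          Φ.apply_symm_apply, Φ.apply_symm_apply, smul_eq_mul, smul_eq_mul]
      exact ⟨⟨_, deriv_mem D⟩, hD⟩
  | algebraMap r =>
    refine ⟨algebraMap ℂ _ r, fun p => ?_⟩
    change r • p = Φ (r • Φ.symm p)
    rw [map_smul, Φ.apply_symm_apply]
  | add Q Q' _ _ h h' =>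
    obtain ⟨R, hR⟩ := h
    obtain ⟨R', hR'⟩ := h'
    refine ⟨R + R', fun p => ?_⟩
    change (R : Module.End ℂ (MvPolynomial τ ℂ)) p + (R' : Module.End ℂ (MvPolynomial τ ℂ)) p = _
    rw [hR, hR', LinearMap.add_apply, map_add]
  | mul Q Q' _ _ h h' =>
    obtain ⟨R, hR⟩ := h
    obtain ⟨R', hR'⟩ := h'
    refine ⟨R * R', fun p => ?_⟩
    change (R : Module.End ℂ (MvPolynomial τ ℂ)) ((R' : Module.End ℂ (MvPolynomial τ ℂ)) p) = _
    rw [hR, hR', Φ.symm_apply_apply, Module.End.mul_apply]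

/-- B1. -/
theorem b1 : S_B1 := by
  intro τ _ Φ g b hb
  obtain ⟨P, hP⟩ := hb
  choose R hR using fun Q : weylS τ => conj_mem Φ Q.1 Q.2
  have h0 : R 0 = 0 := by
    apply Subtype.ext
    refine LinearMap.ext fun p => ?_
    rw [hR]
    change Φ 0 = 0
    exact map_zero _
  refine ⟨P.mapRange R h0, fun s => ?_⟩
  rw [Finsupp.sum_mapRange_index (by
    intro m
    change ((s : ℂ) ^ m) • (0 : MvPolynomial τ ℂ) = 0
    exact smul_zero _)]
  have h1 := congrArg Φ (hP s)
  rw [map_mul, map_pow] at h1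
  have h2 : Φ (C (b.eval (s : ℂ))) = C (b.eval (s : ℂ)) := Φ.commutes _
  rw [h2] at h1
  rw [h1, Finsupp.sum, Finsupp.sum, map_sum]
  refine Finset.sum_congr rfl fun m _ => ?_
  rw [hR, map_smul, ← map_pow, Φ.symm_apply_apply]

end Pool.Agent.N475.CU
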